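import Pool.Agent.H98R3.BA.Dyn

set_option autoImplicit false

open MeasureTheory Filter Topology Set TopologicalSpace
open scoped ENNReal NNReal

namespace Pool.Agent.H98R3.BA

def pt (k l : ℤ) : G2 := Multiplicative.ofAdd (k, l)

theorem pt_mul (k l k' l' : ℤ) : pt k l * pt k' l' = pt (k + k') (l + l') := rfl

theorem act_mul (a : Act) (g h : G2) (x : X) : a.1 (g * h) x = a.1 g (a.1 h x) := by
  rw [a.2.2]; rfl

theorem act_one (a : Act) (x : X) : a.1 1 x = x := by
  rw [a.2.1]; rfl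

/-- invariance of all elements from the two generators -/
theorem inv_of_gen (a : Act) (μ : PM)
    (h1 : (μ : Measure X).map (⇑(a.1 (pt 1 0))) = (μ : Measure X))
    (h2 : (μ : Measure X).map (⇑(a.1 (pt 0 1))) = (μ : Measure X)) : Inv a μ := by
  have hm : ∀ g, Measurable ⇑(a.1 g) := fun g => (a.1 g).continuous.measurable
  let H : Subgroup G2 :=
    { carrier := {g | (μ : Measure X).map (⇑(a.1 g)) = (μ : Measure X)}
      mul_mem' := by
        intro g h hg hh
        change (μ : Measure X).map (⇑(a.1 (g * h))) = (μ : Measure X)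
        have : ⇑(a.1 (g * h)) = ⇑(a.1 g) ∘ ⇑(a.1 h) := by
          funext x; exact act_mul a g h x
        rw [this, ← Measure.map_map (hm g) (hm h)]
        rw [show (μ : Measure X).map (⇑(a.1 h)) = (μ : Measure X) from hh]
        exact hg
      one_mem' := by
        change (μ : Measure X).map (⇑(a.1 1)) = (μ : Measure X)
        have : ⇑(a.1 1) = id := by funext x; exact act_one a x
        rw [this, Measure.map_id]
      inv_mem' := by
        intro g hg
        change (μ : Measure X).map (⇑(a.1 g⁻¹)) = (μ : Measure X)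
        have h3 : ⇑(a.1 g⁻¹) ∘ ⇑(a.1 g) = id := by
          funext x
          change a.1 g⁻¹ (a.1 g x) = x
          rw [← act_mul, inv_mul_cancel, act_one]
        conv_lhs => rw [← show (μ : Measure X).map (⇑(a.1 g)) = (μ : Measure X) from hg]
        rw [Measure.map_map (hm _) (hm g), h3, Measure.map_id] }
  intro g
  have hg : g ∈ H := by
    have : g = (pt 1 0) ^ (Multiplicative.toAdd g).1 * (pt 0 1) ^ (Multiplicative.toAdd g).2 := by
      unfold pt
      rw [← ofAdd_zsmul, ← ofAdd_zsmul, ← ofAdd_add]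
      apply Multiplicative.toAdd.injective
      rw [toAdd_ofAdd]
      ext <;> simp
    rw [this]
    exact H.mul_mem (H.zpow_mem h1 _) (H.zpow_mem h2 _)
  exact hg

section avg

variable (a : Act) (x : X) (N : ℕ)

noncomputable def avgM : Measure X :=
  (((N + 1) * (N + 1) : ℕ) : ℝ≥0∞)⁻¹ • ∑ p ∈ Finset.range (N + 1) ×ˢ Finset.range (N + 1),
    Measure.dirac (a.1 (pt p.1 p.2) x)

theorem avg_apply {K : Set X} (hK : MeasurableSet K) :
    avgM a x N K = (((N + 1) * (N + 1) : ℕ) : ℝ≥0∞)⁻¹ *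
      ∑ p ∈ Finset.range (N + 1) ×ˢ Finset.range (N + 1),
        K.indicator (fun _ => (1 : ℝ≥0∞)) (a.1 (pt p.1 p.2) x) := by
  unfold avgM
  rw [Measure.smul_apply, Measure.finsetSum_apply, smul_eq_mul]
  congr 1
  refine Finset.sum_congr rfl fun p _ => ?_
  rw [Measure.dirac_apply' _ hK]
  rfl

instance : IsProbabilityMeasure (avgM a x N) := by
  constructor
  rw [avg_apply a x N MeasurableSet.univ]
  simp only [mem_univ, indicator_of_mem, Finset.sum_const, Finset.card_product, Finset.card_range,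
    nsmul_eq_mul, mul_one]
  refine ENNReal.inv_mul_cancel ?_ (ENNReal.natCast_ne_top _)
  exact_mod_cast (by positivity : (N + 1) * (N + 1) ≠ 0)

noncomputable def avgP : PM := ⟨avgM a x N, inferInstance⟩

theorem ev_avg {K : Set X} (hK : MeasurableSet K) :
    ev (avgP a x N) K = (((N : ℝ) + 1) * ((N : ℝ) + 1))⁻¹ *
      ∑ l ∈ Finset.range (N + 1), ∑ k ∈ Finset.range (N + 1),
        K.indicator (fun _ => (1 : ℝ)) (a.1 (pt k l) x) := by
  unfold ev avgP Measure.real
  change (avgM a x N K).toReal = _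
  rw [avg_apply a x N hK, ENNReal.toReal_mul, ENNReal.toReal_inv, ENNReal.toReal_natCast]
  congr 1
  · push_cast
    ring
  · rw [ENNReal.toReal_sum, Finset.sum_product_right]
    · refine Finset.sum_congr rfl fun l _ => Finset.sum_congr rfl fun k _ => ?_
      by_cases h : a.1 (pt k l) x ∈ K
      · rw [indicator_of_mem h, indicator_of_mem h, ENNReal.toReal_one]
      · rw [indicator_of_notMem h, indicator_of_notMem h, ENNReal.toReal_zero]
    · intro p _
      by_cases h : a.1 (pt p.1 p.2) x ∈ K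
      · rw [indicator_of_mem h]; exact ENNReal.one_ne_top
      · rw [indicator_of_notMem h]; exact ENNReal.zero_ne_top

end avg

theorem tele (φ : ℕ → ℕ → ℝ) (h0 : ∀ k l, 0 ≤ φ k l) (h1 : ∀ k l, φ k l ≤ 1) (M : ℕ) :
    |(∑ l ∈ Finset.range M, ∑ k ∈ Finset.range M, φ (k + 1) l) -
      ∑ l ∈ Finset.range M, ∑ k ∈ Finset.range M, φ k l| ≤ M := by
  rw [← Finset.sum_sub_distrib]
  refine (Finset.abs_sum_le_sum_abs _ _).trans ?_
  calc ∑ l ∈ Finset.range M, |(∑ k ∈ Finset.range M, φ (k + 1) l) - ∑ k ∈ Finset.range M, φ k l|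
      ≤ ∑ l ∈ Finset.range M, (1 : ℝ) := by
        refine Finset.sum_le_sum fun l _ => ?_
        rw [← Finset.sum_sub_distrib, Finset.sum_range_sub (fun k => φ k l)]
        rw [abs_le]
        constructor <;> linarith [h0 M l, h1 M l, h0 0 l, h1 0 l]
    _ = M := by simp

theorem tele' (φ : ℕ → ℕ → ℝ) (h0 : ∀ k l, 0 ≤ φ k l) (h1 : ∀ k l, φ k l ≤ 1) (M : ℕ) :
    |(∑ l ∈ Finset.range M, ∑ k ∈ Finset.range M, φ k (l + 1)) -
      ∑ l ∈ Finset.range M, ∑ k ∈ Finset.range M, φ k l| ≤ M := by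
  have := tele (fun k l => φ l k) (fun k l => h0 l k) (fun k l => h1 l k) M
  rw [Finset.sum_comm, Finset.sum_comm (f := fun l k => φ k l)]
  exact this

theorem exists_MM (a : Act) {D : Set X} (hD : IsClopen D)
    (h : ∀ N : ℕ, ∃ x : X, ∀ k < N, ∀ l < N, a.1 (pt (k : ℕ) (l : ℕ)) x ∉ D) : (MM a D).Nonempty := by
  choose xs hxs using fun N : ℕ => h (N + 1)
  let ms : ℕ → PM := fun N => avgP a (xs N) N
  let u : Ultrafilter ℕ := hyperfilter ℕ
  have hu : (u : Filter ℕ) ≤ atTop := by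
    rw [← Nat.cofinite_eq_atTop]; exact hyperfilter_le_cofinite
  obtain ⟨μ, -, hμ⟩ := (isCompact_univ (X := PM)).ultrafilter_le_nhds (Ultrafilter.map ms u)
    (by simp)
  have hlim : Tendsto ms (u : Filter ℕ) (𝓝 μ) := hμ
  have hinv0 : Tendsto (fun N : ℕ => (((N : ℝ) + 1) * ((N : ℝ) + 1))⁻¹ * ((N + 1 : ℕ) : ℝ))
      (u : Filter ℕ) (𝓝 0) := by
    have h1 : Tendsto (fun N : ℕ => 1 / ((N : ℝ) + 1)) atTop (𝓝 0) :=
      tendsto_one_div_add_atTop_nhds_zero_nat
    refine (h1.mono_left hu).congr fun N => ?_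
    have : ((N : ℝ) + 1) ≠ 0 := by positivity
    push_cast
    field_simp
  -- general comparison
  have hcmp : ∀ K K' : Set X, IsClopen K → IsClopen K' →
      (∀ N, |ev (ms N) K' - ev (ms N) K| ≤ (((N : ℝ) + 1) * ((N : ℝ) + 1))⁻¹ * ((N + 1 : ℕ) : ℝ)) →
      ev μ K' = ev μ K := by
    intro K K' hK hK' hb
    have t1 := (tendsto_ev hlim hK').sub (tendsto_ev hlim hK)
    have t2 : Tendsto (fun N => ev (ms N) K' - ev (ms N) K) (u : Filter ℕ) (𝓝 0) :=
      squeeze_zero_norm (fun N => by rw [Real.norm_eq_abs]; exact hb N) hinv0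
    have := tendsto_nhds_unique t1 t2
    linarith
  have hind : ∀ (K : Set X) (y : X), 0 ≤ K.indicator (fun _ => (1 : ℝ)) y ∧
      K.indicator (fun _ => (1 : ℝ)) y ≤ 1 := by
    intro K y
    by_cases hy : y ∈ K
    · rw [indicator_of_mem hy]; exact ⟨zero_le_one, le_rfl⟩
    · rw [indicator_of_notMem hy]; exact ⟨le_rfl, zero_le_one⟩
  have gen : ∀ (g : G2), (∀ K : Set X, IsClopen K → ∀ N : ℕ,
      |ev (ms N) (⇑(a.1 g) ⁻¹' K) - ev (ms N) K| ≤
        (((N : ℝ) + 1) * ((N : ℝ) + 1))⁻¹ * ((N + 1 : ℕ) : ℝ)) →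
      (μ : Measure X).map (⇑(a.1 g)) = (μ : Measure X) := by
    intro g hg
    have hmeas : Measurable ⇑(a.1 g) := (a.1 g).continuous.measurable
    haveI : IsProbabilityMeasure ((μ : Measure X).map (⇑(a.1 g))) :=
      Measure.isProbabilityMeasure_map hmeas.aemeasurable
    apply ext_clopen
    intro K hK
    have hK' : IsClopen (⇑(a.1 g) ⁻¹' K) := hK.preimage (a.1 g).continuous
    have := hcmp K _ hK hK' (hg K hK)
    rw [Measure.map_apply hmeas hK.isOpen.measurableSet]
    unfold ev Measure.real at this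
    exact (ENNReal.toReal_eq_toReal_iff' (measure_ne_top _ _) (measure_ne_top _ _)).1 this
  refine ⟨μ, inv_of_gen a μ (gen _ ?_) (gen _ ?_), ?_⟩
  · intro K hK N
    have hK' : IsClopen (⇑(a.1 (pt 1 0)) ⁻¹' K) := hK.preimage (a.1 _).continuous
    rw [ev_avg a (xs N) N hK.isOpen.measurableSet, ev_avg a (xs N) N hK'.isOpen.measurableSet,
      ← mul_sub, abs_mul, abs_of_nonneg (by positivity)]
    refine mul_le_mul_of_nonneg_left ?_ (by positivity)
    have := tele (fun k l => K.indicator (fun _ => (1 : ℝ)) (a.1 (pt k l) (xs N)))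
      (fun k l => (hind K _).1) (fun k l => (hind K _).2) (N + 1)
    have e : ∀ k l : ℕ, (⇑(a.1 (pt 1 0)) ⁻¹' K).indicator (fun _ => (1 : ℝ)) (a.1 (pt k l) (xs N)) =
        K.indicator (fun _ => (1 : ℝ)) (a.1 (pt ((k + 1 : ℕ) : ℤ) l) (xs N)) := by
      intro k l
      have h2 : a.1 (pt 1 0) (a.1 (pt k l) (xs N)) = a.1 (pt ((k + 1 : ℕ) : ℤ) l) (xs N) := by
        rw [← act_mul, pt_mul]
        congr 2
        push_cast
        rw [add_comm, zero_add]
      rw [← h2]
      rfl
    simp only [e]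
    exact this
  · intro K hK N
    have hK' : IsClopen (⇑(a.1 (pt 0 1)) ⁻¹' K) := hK.preimage (a.1 _).continuous
    rw [ev_avg a (xs N) N hK.isOpen.measurableSet, ev_avg a (xs N) N hK'.isOpen.measurableSet,
      ← mul_sub, abs_mul, abs_of_nonneg (by positivity)]
    refine mul_le_mul_of_nonneg_left ?_ (by positivity)
    have := tele' (fun k l => K.indicator (fun _ => (1 : ℝ)) (a.1 (pt k l) (xs N)))
      (fun k l => (hind K _).1) (fun k l => (hind K _).2) (N + 1)
    have e : ∀ k l : ℕ, (⇑(a.1 (pt 0 1)) ⁻¹' K).indicator (fun _ => (1 : ℝ)) (a.1 (pt k l) (xs N)) =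
        K.indicator (fun _ => (1 : ℝ)) (a.1 (pt k ((l + 1 : ℕ) : ℤ)) (xs N)) := by
      intro k l
      have h2 : a.1 (pt 0 1) (a.1 (pt k l) (xs N)) = a.1 (pt k ((l + 1 : ℕ) : ℤ)) (xs N) := by
        rw [← act_mul, pt_mul]
        congr 2
        push_cast
        rw [add_comm 1 (l : ℤ), zero_add]
      rw [← h2]
      rfl
    simp only [e]
    exact this
  · have h0 : ∀ N, ev (ms N) D = 0 := by
      intro N
      rw [ev_avg a (xs N) N hD.isOpen.measurableSet]
      have : ∑ l ∈ Finset.range (N + 1), ∑ k ∈ Finset.range (N + 1),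
          D.indicator (fun _ => (1 : ℝ)) (a.1 (pt k l) (xs N)) = 0 := by
        refine Finset.sum_eq_zero fun l hl => Finset.sum_eq_zero fun k hk => ?_
        exact indicator_of_notMem (hxs N k (Finset.mem_range.1 hk) l (Finset.mem_range.1 hl)) _
      rw [this, mul_zero]
    have t1 := tendsto_ev hlim hD
    simp only [h0] at t1
    exact (tendsto_nhds_unique t1 tendsto_const_nhds)

end Pool.Agent.H98R3.BA
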