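import Pool.Agent.H98R3.BA.SeedEx

set_option autoImplicit false

open MeasureTheory Filter Topology Set TopologicalSpace Uniformity

namespace Pool.Agent.H98R3.BA

instance cg_bool : IsCountablyGenerated (𝓤 Bool) := by
  rw [show 𝓤 Bool = 𝓟 SetRel.id from bot_uniformity]
  exact isCountablyGenerated_principal _

theorem isClosed_act : IsClosed {a : G2 → C(ℕ → Bool, ℕ → Bool) |
    a 1 = ContinuousMap.id (ℕ → Bool) ∧ ∀ g h : G2, a (g * h) = (a g).comp (a h)} := by
  have h1 : IsClosed {a : G2 → C(ℕ → Bool, ℕ → Bool) | a 1 = ContinuousMap.id (ℕ → Bool)} :=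
    isClosed_eq (continuous_apply 1) continuous_const
  have h2 : IsClosed {a : G2 → C(ℕ → Bool, ℕ → Bool) | ∀ g h : G2, a (g * h) = (a g).comp (a h)} := by
    have : {a : G2 → C(ℕ → Bool, ℕ → Bool) | ∀ g h : G2, a (g * h) = (a g).comp (a h)} =
        ⋂ g : G2, ⋂ h : G2, {a : G2 → C(ℕ → Bool, ℕ → Bool) | a (g * h) = (a g).comp (a h)} := by
      ext a
      simp
    rw [this]
    refine isClosed_iInter fun g => isClosed_iInter fun h => isClosed_eq (continuous_apply _) ?_
    exact Continuous.compCM (continuous_apply g) (continuous_apply h)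
  exact h1.inter h2

instance baire_act : BaireSpace Act := by
  haveI : IsCompletelyMetrizableSpace Act := isClosed_act.isCompletelyMetrizableSpace
  infer_instance

theorem natAbs_bound (n : ℕ) (u : ℤ) (i : ℕ) (hi : i < n) (h : ¬ (0 ≤ u + i ∧ u + i < n)) :
    i ∈ Finset.range u.natAbs ∪ Finset.Ico (n - u.natAbs) n := by
  simp only [Finset.mem_union, Finset.mem_range, Finset.mem_Ico]
  omega

theorem folner : ∀ (F : Finset G2) (ε : ℝ), 0 < ε → ∃ S : Finset G2, S.Nonempty ∧
    ∀ g ∈ F, ((((fun x => g * x) '' (S : Set G2)) \ (S : Set G2)).ncard : ℝ) < ε * (S.card : ℝ) := by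
  classical
  intro F ε hε
  let M : ℕ := ∑ g ∈ F, ((Multiplicative.toAdd g).1.natAbs + (Multiplicative.toAdd g).2.natAbs)
  obtain ⟨n, hn⟩ := exists_nat_gt (2 * (M : ℝ) / ε)
  let N := n + 1
  let f : ℕ × ℕ → G2 := fun p => pt p.1 p.2
  have hf : Function.Injective f := by
    intro p q hpq
    have h1 := congrArg (fun g : G2 => (Multiplicative.toAdd g).1) hpq
    have h2 := congrArg (fun g : G2 => (Multiplicative.toAdd g).2) hpq
    simp only [f, pt, toAdd_ofAdd] at h1 h2
    exact Prod.ext (by exact_mod_cast h1) (by exact_mod_cast h2)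
  refine ⟨(Finset.range N ×ˢ Finset.range N).image f, ?_, fun g hg => ?_⟩
  · refine Finset.Nonempty.image ⟨(0, 0), ?_⟩ f
    simp [N]
  set u : ℤ := (Multiplicative.toAdd g).1 with hu
  set v : ℤ := (Multiplicative.toAdd g).2 with hv
  have hcard : ((Finset.range N ×ˢ Finset.range N).image f).card = N * N := by
    rw [Finset.card_image_of_injective _ hf, Finset.card_product, Finset.card_range]
  let E : ℤ → Finset ℕ := fun w => Finset.range w.natAbs ∪ Finset.Ico (N - w.natAbs) N
  have hE : ∀ w, (E w).card ≤ 2 * w.natAbs := by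
    intro w
    refine (Finset.card_union_le _ _).trans ?_
    rw [Finset.card_range, Nat.card_Ico]
    omega
  have hsub : (((fun x => g * x) '' (((Finset.range N ×ˢ Finset.range N).image f : Finset G2) : Set G2)) \
      (((Finset.range N ×ˢ Finset.range N).image f : Finset G2) : Set G2)) ⊆
      (((E u ×ˢ Finset.range N ∪ Finset.range N ×ˢ E v).image fun p => g * f p : Finset G2) : Set G2) := by
    rintro y ⟨⟨x, hx, rfl⟩, hy⟩
    simp only [Finset.coe_image, mem_image, Finset.mem_coe, Finset.mem_product, Finset.mem_range] at hx hy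
    obtain ⟨p, ⟨hp1, hp2⟩, rfl⟩ := hx
    simp only [Finset.coe_image, mem_image, Finset.mem_coe]
    refine ⟨p, ?_, rfl⟩
    rw [Finset.mem_union, Finset.mem_product, Finset.mem_product]
    by_contra hcon
    push Not at hcon
    have h1 : 0 ≤ u + p.1 ∧ u + p.1 < N := by
      by_contra hc
      have h3 := natAbs_bound N u p.1 hp1 hc
      exact hcon.1 h3 (Finset.mem_range.2 hp2)
    have h2 : 0 ≤ v + p.2 ∧ v + p.2 < N := by
      by_contra hc
      have h3 := natAbs_bound N v p.2 hp2 hc
      exact hcon.2 (Finset.mem_range.2 hp1) h3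
    apply hy
    refine ⟨((u + p.1).toNat, (v + p.2).toNat), ⟨by dsimp only; omega, by dsimp only; omega⟩, ?_⟩
    apply Multiplicative.toAdd.injective
    change ((((u + p.1).toNat : ℕ) : ℤ), (((v + p.2).toNat : ℕ) : ℤ)) = (u + p.1, v + p.2)
    rw [Int.toNat_of_nonneg h1.1, Int.toNat_of_nonneg h2.1]
  have hbound : (((fun x => g * x) '' (((Finset.range N ×ˢ Finset.range N).image f : Finset G2) : Set G2)) \
      (((Finset.range N ×ˢ Finset.range N).image f : Finset G2) : Set G2)).ncard ≤ 2 * M * N := by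
    refine (Set.ncard_le_ncard hsub (Finset.finite_toSet _)).trans ?_
    rw [Set.ncard_coe_finset]
    refine Finset.card_image_le.trans ((Finset.card_union_le _ _).trans ?_)
    rw [Finset.card_product, Finset.card_product, Finset.card_range]
    have h1 := hE u
    have h2 := hE v
    have h3 : u.natAbs + v.natAbs ≤ M :=
      Finset.single_le_sum (f := fun g : G2 => (Multiplicative.toAdd g).1.natAbs +
        (Multiplicative.toAdd g).2.natAbs) (fun _ _ => Nat.zero_le _) hg
    nlinarith
  rw [hcard]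
  have hN : (0 : ℝ) < N := by exact_mod_cast Nat.succ_pos n
  have h4 : 2 * (M : ℝ) < ε * N := by
    rw [div_lt_iff₀ hε] at hn
    have : (n : ℝ) ≤ N := by exact_mod_cast Nat.le_succ n
    nlinarith
  calc _ ≤ ((2 * M * N : ℕ) : ℝ) := by exact_mod_cast hbound
    _ = 2 * (M : ℝ) * N := by push_cast; ring
    _ < ε * N * N := mul_lt_mul_of_pos_right h4 hN
    _ = ε * ((N * N : ℕ) : ℝ) := by push_cast; ring

end Pool.Agent.H98R3.BA
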