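import Mathlib

set_option autoImplicit false

namespace Pool.Agent.H98R3.BA

theorem testBit_succ_eq (k : ℕ) : ∀ t : ℕ, (t + 1).testBit k =
    xor (t.testBit k) (decide (∀ j < k, t.testBit j = true)) := by
  induction k with
  | zero =>
    intro t
    simp [Nat.testBit_zero]
    rcases Nat.even_or_odd t with h | h
    · have h1 : t % 2 = 0 := Nat.even_iff.1 h
      have h2 : (t + 1) % 2 = 1 := by omega
      simp [h1, h2]
    · have h1 : t % 2 = 1 := Nat.odd_iff.1 h
      have h2 : (t + 1) % 2 = 0 := by omega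
      simp [h1, h2]
  | succ k ih =>
    intro t
    rcases Nat.even_or_odd t with h | h
    · have h1 : t % 2 = 0 := Nat.even_iff.1 h
      have h2 : (t + 1) / 2 = t / 2 := by omega
      have h3 : ¬ ∀ j < k + 1, t.testBit j = true := by
        intro hc
        have := hc 0 (Nat.succ_pos k)
        simp [Nat.testBit_zero, h1] at this
      rw [Nat.testBit_succ, Nat.testBit_succ, h2]
      simp only [h3, decide_false, Bool.xor_false]
    · have h1 : t % 2 = 1 := Nat.odd_iff.1 h
      have h2 : (t + 1) / 2 = t / 2 + 1 := by omega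
      have h3 : (∀ j < k + 1, t.testBit j = true) ↔ ∀ j < k, (t / 2).testBit j = true := by
        constructor
        · intro hc j hj
          have := hc (j + 1) (by omega)
          rwa [Nat.testBit_succ] at this
        · intro hc j hj
          rcases j with _ | j
          · simp [Nat.testBit_zero, h1]
          · rw [Nat.testBit_succ]
            exact hc j (by omega)
      rw [Nat.testBit_succ, Nat.testBit_succ, h2, ih]
      congr 1
      exact decide_eq_decide.2 h3.symm

theorem exists_bits (y : ℕ → Bool) (N : ℕ) : ∃ m : ℕ, ∀ k < N, m.testBit k = y k := by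
  induction N generalizing y with
  | zero => exact ⟨0, fun k hk => absurd hk (by omega)⟩
  | succ N ih =>
    obtain ⟨m, hm⟩ := ih (fun k => y (k + 1))
    refine ⟨Nat.bit (y 0) m, fun k hk => ?_⟩
    rcases k with _ | k
    · exact Nat.testBit_bit_zero _ _
    · rw [Nat.testBit_bit_succ]
      exact hm k (by omega)

variable {b c : ℕ → ℕ → Prop}

theorem grid (hc : ∀ k t, c (k + 1) t ↔ c k t ∧ b k t)
    (hb : ∀ k t, b k (t + 1) ↔ ((b k t ∧ ¬ c k t) ∨ (c k t ∧ ¬ b k t)))
    (h0 : ∀ k, ¬ b k 0) (hl : ∀ t, c 0 t) (t : ℕ) :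
    ∀ k, (b k t ↔ t.testBit k = true) ∧ (c k t ↔ ∀ j < k, t.testBit j = true) := by
  induction t with
  | zero =>
    intro k
    have hb0 : ∀ k, (b k 0 ↔ (0 : ℕ).testBit k = true) := fun k => by simp [h0 k]
    refine ⟨hb0 k, ?_⟩
    induction k with
    | zero => simp [hl 0]
    | succ k ih =>
      rw [hc, ih, hb0]
      constructor
      · rintro ⟨h1, h2⟩ j hj
        rcases Nat.lt_succ_iff_lt_or_eq.1 hj with h | h
        · exact h1 j h
        · rw [h]; exact h2
      · intro h
        exact ⟨fun j hj => h j (by omega), h k (by omega)⟩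
  | succ t ih =>
    intro k
    have hb1 : ∀ k, (b k (t + 1) ↔ (t + 1).testBit k = true) := by
      intro k
      rw [hb, (ih k).1, (ih k).2, testBit_succ_eq]
      by_cases h1 : t.testBit k = true <;> by_cases h2 : (∀ j < k, t.testBit j = true)
      · rw [decide_eq_true h2]; simp [h1]; exact h2
      · rw [decide_eq_false h2]; simp only [h1]; simp [h2]
      · rw [decide_eq_true h2]; simp only [Bool.not_eq_true] at h1; simp only [h1]; simp; exact h2
      · rw [decide_eq_false h2]; simp only [Bool.not_eq_true] at h1; simp only [h1]; simp [h2]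
    refine ⟨hb1 k, ?_⟩
    induction k with
    | zero => simp [hl (t + 1)]
    | succ k ihk =>
      rw [hc, ihk, hb1]
      constructor
      · rintro ⟨h1, h2⟩ j hj
        rcases Nat.lt_succ_iff_lt_or_eq.1 hj with h | h
        · exact h1 j h
        · rw [h]; exact h2
      · intro h
        exact ⟨fun j hj => h j (by omega), h k (by omega)⟩

theorem box (hc : ∀ k t, c (k + 1) t ↔ c k t ∧ b k t)
    (hb : ∀ k t, b k (t + 1) ↔ ((b k t ∧ ¬ c k t) ∨ (c k t ∧ ¬ b k t)))
    (h0 : ∀ k, ¬ b k 0) (hl : ∀ t, c 0 t) (y : ℕ → Bool) (N : ℕ) :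
    ∃ k₀ t₀ : ℕ, ∀ k < N, ∀ t < N, (b (k₀ + k) (t₀ + t) ↔ y k = true) ∧ ¬ c (k₀ + k) (t₀ + t) := by
  obtain ⟨m, hm⟩ := exists_bits y N
  refine ⟨N + 1, 2 ^ (N + 1) * m, fun k hk t ht => ?_⟩
  have hlt : t < 2 ^ (N + 1) := by
    have := Nat.lt_two_pow_self (n := N + 1)
    omega
  have hg := grid hc hb h0 hl (2 ^ (N + 1) * m + t) (N + 1 + k)
  constructor
  · rw [hg.1, Nat.testBit_two_pow_mul_add m hlt]
    have : ¬ (N + 1 + k < N + 1) := by omega
    simp only [this, if_false]
    rw [Nat.add_sub_cancel_left, hm k hk]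
  · rw [hg.2]
    intro hcon
    have := hcon N (by omega)
    rw [Nat.testBit_two_pow_mul_add m hlt] at this
    have h2 : N < N + 1 := by omega
    simp only [h2, if_true] at this
    rw [Nat.testBit_lt_two_pow] at this
    · exact absurd this (by simp)
    · have := Nat.lt_two_pow_self (n := N)
      omega

end Pool.Agent.H98R3.BA
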