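import Pool.Agent.H98R3.BA.Ergo

set_option autoImplicit false

open MeasureTheory Filter Topology Set TopologicalSpace
open scoped ENNReal NNReal

namespace Pool.Agent.H98R3.BA

abbrev G2 := Multiplicative (ℤ × ℤ)
abbrev Act := {a : G2 → C(ℕ → Bool, ℕ → Bool) //
  a 1 = ContinuousMap.id (ℕ → Bool) ∧ ∀ g h : G2, a (g * h) = (a g).comp (a h)}

def Inv (a : Act) (μ : PM) : Prop := ∀ g : G2, (μ : Measure X).map (⇑(a.1 g)) = (μ : Measure X)

def MM (a : Act) (D : Set X) : Set PM := {μ | Inv a μ ∧ ev μ D = 0}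

theorem isClosed_MM (a : Act) {D : Set X} (hD : IsClopen D) : IsClosed (MM a D) := by
  have h1 : IsClosed {μ : PM | Inv a μ} := by
    have : {μ : PM | Inv a μ} = ⋂ g : G2, {μ : PM | (μ : Measure X).map ⇑(a.1 g) = (μ : Measure X)} := by
      ext μ
      simp [Inv]
    rw [this]
    exact isClosed_iInter fun g => isClosed_inv (a.1 g)
  have h2 : IsClosed {μ : PM | ev μ D = 0} := isClosed_eq (continuous_ev hD) continuous_const
  exact h1.inter h2

theorem cond_mem {a : Act} {D : Set X} {μ : PM} (hμ : μ ∈ MM a D) {s : Set X}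
    (hs : MeasurableSet s) (hinv : ∀ g : G2, ⇑(a.1 g) ⁻¹' s = s) (hs0 : (μ : Measure X) s ≠ 0) :
    ∃ ν ∈ MM a D, (ν : Measure X) = ProbabilityTheory.cond (μ : Measure X) s := by
  haveI := ProbabilityTheory.cond_isProbabilityMeasure (μ := (μ : Measure X)) hs0
  refine ⟨⟨ProbabilityTheory.cond (μ : Measure X) s, inferInstance⟩, ⟨fun g => ?_, ?_⟩, rfl⟩
  · ext A hA
    have hmeas : Measurable ⇑(a.1 g) := (a.1 g).continuous.measurable
    change (Measure.map _ (ProbabilityTheory.cond (μ : Measure X) s)) A =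
      (ProbabilityTheory.cond (μ : Measure X) s) A
    rw [Measure.map_apply hmeas hA, ProbabilityTheory.cond_apply hs, ProbabilityTheory.cond_apply hs]
    congr 1
    have h1 : s ∩ ⇑(a.1 g) ⁻¹' A = ⇑(a.1 g) ⁻¹' (s ∩ A) := by
      rw [preimage_inter, hinv g]
    rw [h1, ← Measure.map_apply hmeas (hs.inter hA), hμ.1 g]
  · change (ProbabilityTheory.cond (μ : Measure X) s).real D = 0
    have h0 : (μ : Measure X) D = 0 := by
      have := hμ.2
      unfold ev Measure.real at this
      rcases (ENNReal.toReal_eq_zero_iff _).1 this with h | h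
      · exact h
      · exact absurd h (measure_ne_top _ _)
    have h1 : (ProbabilityTheory.cond (μ : Measure X) s) D = 0 := by
      rw [ProbabilityTheory.cond_apply hs]
      rw [measure_mono_null inter_subset_right h0, mul_zero]
    unfold Measure.real
    rw [h1]
    rfl

theorem exists_ergodic (a : Act) {D : Set X} (hD : IsClopen D) (hne : (MM a D).Nonempty) :
    ∃ μ ∈ MM a D, ∀ s : Set X, MeasurableSet s → (∀ g : G2, ⇑(a.1 g) ⁻¹' s = s) →
      (μ : Measure X) s = 0 ∨ (μ : Measure X) s = 1 := by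
  obtain ⟨μ, hμ, hmax⟩ := (isClosed_MM a hD).isCompact.exists_isMaxOn hne continuous_FF.continuousOn
  refine ⟨μ, hμ, fun s hs hinv => ?_⟩
  by_contra hcon
  push Not at hcon
  obtain ⟨hs0, hs1⟩ := hcon
  have hc0 : (μ : Measure X) sᶜ ≠ 0 := by
    intro h
    exact hs1 ((prob_compl_eq_zero_iff hs).1 h)
  obtain ⟨μ₁, h1, e1⟩ := cond_mem hμ hs hinv hs0
  obtain ⟨μ₂, h2, e2⟩ := cond_mem hμ hs.compl (fun g => by rw [preimage_compl, hinv g]) hc0
  have hconv : ∀ K : Set X, IsClopen K →
      ev μ K = (μ : Measure X).real s * ev μ₁ K + (1 - (μ : Measure X).real s) * ev μ₂ K := by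
    intro K hK
    have hKm : MeasurableSet K := hK.isOpen.measurableSet
    unfold ev
    rw [e1, e2]
    have r1 : (μ : Measure X).real s * (ProbabilityTheory.cond (μ : Measure X) s).real K =
        (μ : Measure X).real (s ∩ K) := by
      unfold Measure.real
      rw [ProbabilityTheory.cond_apply hs, ENNReal.toReal_mul, ENNReal.toReal_inv, ← mul_assoc,
        mul_inv_cancel₀ (ENNReal.toReal_ne_zero.2 ⟨hs0, measure_ne_top _ _⟩), one_mul]
    have r2 : (1 - (μ : Measure X).real s) * (ProbabilityTheory.cond (μ : Measure X) sᶜ).real K =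
        (μ : Measure X).real (sᶜ ∩ K) := by
      rw [← probReal_compl_eq_one_sub hs]
      unfold Measure.real
      rw [ProbabilityTheory.cond_apply hs.compl, ENNReal.toReal_mul, ENNReal.toReal_inv, ← mul_assoc,
        mul_inv_cancel₀ (ENNReal.toReal_ne_zero.2 ⟨hc0, measure_ne_top _ _⟩), one_mul]
    rw [r1, r2]
    have := measureReal_inter_add_diff (μ := (μ : Measure X)) (s := K) hs
    rw [← this, inter_comm, diff_eq, inter_comm K sᶜ]
  have ht0 : 0 < (μ : Measure X).real s := ENNReal.toReal_pos hs0 (measure_ne_top _ _)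
  have ht1 : (μ : Measure X).real s < 1 := by
    have h3 : 0 < (μ : Measure X).real sᶜ := ENNReal.toReal_pos hc0 (measure_ne_top _ _)
    rw [probReal_compl_eq_one_sub hs] at h3
    linarith
  have heq := FF_convex ht0 ht1 hconv (hmax h1) (hmax h2)
  have h5 : (μ₁ : Measure X) s = 1 := by
    rw [e1, ProbabilityTheory.cond_apply hs, inter_self]
    exact ENNReal.inv_mul_cancel hs0 (measure_ne_top _ _)
  have h6 : (μ₂ : Measure X) s = 0 := by
    rw [e2, ProbabilityTheory.cond_apply hs.compl]
    simp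
  rw [heq, h6] at h5
  exact zero_ne_one h5

end Pool.Agent.H98R3.BA
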