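import Mathlib

set_option autoImplicit false

open MeasureTheory Filter Topology Set TopologicalSpace
open scoped ENNReal NNReal

namespace Pool.Agent.H98R3.BA

abbrev X := ℕ → Bool
abbrev PM := ProbabilityMeasure X

instance countable_clopens : Countable (Clopens X) :=
  Clopens.countable_iff_secondCountable.2 inferInstance

noncomputable def ev (μ : PM) (K : Set X) : ℝ := (μ : Measure X).real K

theorem ev_eq (μ : PM) (K : Set X) : ev μ K = ((μ K : ℝ≥0) : ℝ) := rfl

theorem tendsto_ev {ι : Type*} {L : Filter ι} {μs : ι → PM} {μ : PM} (h : Tendsto μs L (𝓝 μ))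
    {K : Set X} (hK : IsClopen K) : Tendsto (fun i => ev (μs i) K) L (𝓝 (ev μ K)) := by
  have := ProbabilityMeasure.tendsto_measure_of_isClopen_of_tendsto h hK
  exact (NNReal.tendsto_coe.2 this)

theorem continuous_ev {K : Set X} (hK : IsClopen K) : Continuous fun μ : PM => ev μ K :=
  continuous_iff_continuousAt.2 fun _ => tendsto_ev tendsto_id hK

theorem ev_nonneg (μ : PM) (K : Set X) : 0 ≤ ev μ K := measureReal_nonneg

theorem ev_le_one (μ : PM) (K : Set X) : ev μ K ≤ 1 := measureReal_le_one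

theorem ext_clopen {μ ν : Measure X} [IsProbabilityMeasure μ] [IsProbabilityMeasure ν]
    (h : ∀ K : Set X, IsClopen K → μ K = ν K) : μ = ν := by
  refine ext_of_generate_finite {s : Set X | IsClopen s} ?_ ?_ (fun s hs => h s hs) (by simp)
  · rw [BorelSpace.measurable_eq (α := X)]
    exact isTopologicalBasis_isClopen.borel_eq_generateFrom
  · intro s hs t ht _
    exact IsClopen.inter hs ht

theorem ext_ev {μ ν : PM} (h : ∀ K : Set X, IsClopen K → ev μ K = ev ν K) : μ = ν := by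
  apply Subtype.ext
  haveI : IsProbabilityMeasure (Subtype.val ν) := ν.2
  haveI : IsProbabilityMeasure (Subtype.val μ) := μ.2
  apply ext_clopen
  intro K hK
  have := h K hK
  unfold ev Measure.real at this
  exact (ENNReal.toReal_eq_toReal_iff' (measure_ne_top _ _) (measure_ne_top _ _)).1 this

theorem isClosed_inv (f : C(X, X)) : IsClosed {μ : PM | (μ : Measure X).map ⇑f = (μ : Measure X)} := by
  have h1 : Continuous fun μ : PM => μ.map (f := ⇑f) f.continuous.aemeasurable :=
    ProbabilityMeasure.continuous_map f.continuous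
  have h2 : {μ : PM | (μ : Measure X).map ⇑f = (μ : Measure X)} =
      {μ : PM | μ.map (f := ⇑f) f.continuous.aemeasurable = μ} := by
    ext μ
    simp only [mem_setOf_eq]
    constructor
    · intro h
      exact Subtype.ext h
    · intro h
      exact congrArg Subtype.val h
  rw [h2]
  exact isClosed_eq h1 continuous_id

/-- the strictly convex functional -/
noncomputable def FF (μ : PM) : ℝ :=
  letI := Encodable.ofCountable (Clopens X)
  ∑' K : Clopens X, (1 / 2 : ℝ) ^ Encodable.encode K * ev μ K ^ 2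

theorem summ (μ : PM) (ν : PM) :
    letI := Encodable.ofCountable (Clopens X)
    Summable fun K : Clopens X => (1 / 2 : ℝ) ^ Encodable.encode K * (ev μ K * ev ν K) := by
  letI := Encodable.ofCountable (Clopens X)
  refine Summable.of_nonneg_of_le (fun K => mul_nonneg (by positivity)
    (mul_nonneg (ev_nonneg _ _) (ev_nonneg _ _))) (fun K => ?_)
    (summable_geometric_two_encode (ι := Clopens X))
  have h1 : ev μ K * ev ν K ≤ 1 := mul_le_one₀ (ev_le_one _ _) (ev_nonneg _ _) (ev_le_one _ _)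
  have h2 : (0 : ℝ) ≤ (1 / 2 : ℝ) ^ Encodable.encode K := by positivity
  calc _ ≤ (1 / 2 : ℝ) ^ Encodable.encode K * 1 := mul_le_mul_of_nonneg_left h1 h2
    _ = _ := mul_one _

theorem continuous_FF : Continuous FF := by
  letI := Encodable.ofCountable (Clopens X)
  unfold FF
  refine continuous_tsum (u := fun K : Clopens X => (1 / 2 : ℝ) ^ Encodable.encode K)
    (fun K => ?_) (summable_geometric_two_encode (ι := Clopens X)) (fun K μ => ?_)
  · exact continuous_const.mul ((continuous_ev K.isClopen).pow 2)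
  · rw [Real.norm_eq_abs, abs_of_nonneg (mul_nonneg (by positivity) (sq_nonneg _))]
    have h1 : ev μ K ^ 2 ≤ 1 := pow_le_one₀ (ev_nonneg _ _) (ev_le_one _ _)
    have h2 : (0 : ℝ) ≤ (1 / 2 : ℝ) ^ Encodable.encode K := by positivity
    calc _ ≤ (1 / 2 : ℝ) ^ Encodable.encode K * 1 := mul_le_mul_of_nonneg_left h1 h2
      _ = _ := mul_one _

/-- strict convexity -/
theorem FF_convex {μ μ₁ μ₂ : PM} {t : ℝ} (ht0 : 0 < t) (ht1 : t < 1)
    (hμ : ∀ K : Set X, IsClopen K → ev μ K = t * ev μ₁ K + (1 - t) * ev μ₂ K)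
    (h1 : FF μ₁ ≤ FF μ) (h2 : FF μ₂ ≤ FF μ) : μ₁ = μ₂ := by
  letI := Encodable.ofCountable (Clopens X)
  have s1 := summ μ₁ μ₁
  have s2 := summ μ₂ μ₂
  have s3 := summ μ μ
  have key : ∀ K : Clopens X, (1 / 2 : ℝ) ^ Encodable.encode K * (t * (1 - t) * (ev μ₁ K - ev μ₂ K) ^ 2)
      = t * ((1 / 2 : ℝ) ^ Encodable.encode K * (ev μ₁ K * ev μ₁ K)) +
        (1 - t) * ((1 / 2 : ℝ) ^ Encodable.encode K * (ev μ₂ K * ev μ₂ K)) -
        (1 / 2 : ℝ) ^ Encodable.encode K * (ev μ K * ev μ K) := by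
    intro K
    rw [hμ K K.isClopen]
    ring
  have s4 : Summable fun K : Clopens X =>
      (1 / 2 : ℝ) ^ Encodable.encode K * (t * (1 - t) * (ev μ₁ K - ev μ₂ K) ^ 2) := by
    simp_rw [key]
    exact ((s1.mul_left t).add (s2.mul_left (1 - t))).sub s3
  have e1 : FF μ₁ = ∑' K : Clopens X, (1 / 2 : ℝ) ^ Encodable.encode K * (ev μ₁ K * ev μ₁ K) := by
    unfold FF; simp_rw [sq]
  have e2 : FF μ₂ = ∑' K : Clopens X, (1 / 2 : ℝ) ^ Encodable.encode K * (ev μ₂ K * ev μ₂ K) := by
    unfold FF; simp_rw [sq]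
  have e3 : FF μ = ∑' K : Clopens X, (1 / 2 : ℝ) ^ Encodable.encode K * (ev μ K * ev μ K) := by
    unfold FF; simp_rw [sq]
  have hsum : ∑' K : Clopens X,
      (1 / 2 : ℝ) ^ Encodable.encode K * (t * (1 - t) * (ev μ₁ K - ev μ₂ K) ^ 2) =
      t * FF μ₁ + (1 - t) * FF μ₂ - FF μ := by
    simp_rw [key]
    rw [((s1.mul_left t).add (s2.mul_left (1 - t))).tsum_sub s3,
      (s1.mul_left t).tsum_add (s2.mul_left (1 - t)), tsum_mul_left, tsum_mul_left, e1, e2, e3]
  have hle : ∑' K : Clopens X,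
      (1 / 2 : ℝ) ^ Encodable.encode K * (t * (1 - t) * (ev μ₁ K - ev μ₂ K) ^ 2) ≤ 0 := by
    rw [hsum]
    nlinarith
  have hnn : ∀ K : Clopens X,
      0 ≤ (1 / 2 : ℝ) ^ Encodable.encode K * (t * (1 - t) * (ev μ₁ K - ev μ₂ K) ^ 2) := by
    intro K
    have : 0 < 1 - t := by linarith
    positivity
  apply ext_ev
  intro K hK
  by_contra hne
  have hpos : 0 < (1 / 2 : ℝ) ^ Encodable.encode (⟨K, hK⟩ : Clopens X) *
      (t * (1 - t) * (ev μ₁ K - ev μ₂ K) ^ 2) := by
    have h3 : 0 < 1 - t := by linarith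
    have h4 : 0 < (ev μ₁ K - ev μ₂ K) ^ 2 := by
      have : ev μ₁ K - ev μ₂ K ≠ 0 := sub_ne_zero.2 hne
      positivity
    positivity
  have := s4.tsum_pos hnn (⟨K, hK⟩ : Clopens X) hpos
  linarith

end Pool.Agent.H98R3.BA
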