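import Mathlib

set_option autoImplicit false

namespace Pool.Agent.H98R3.BA

/-- the periodic word: `n` zeros, `n` ones -/
def pat (n k : ℕ) : Bool := decide (n ≤ k % (2 * n))

theorem pat_per (n k : ℕ) : pat n (k + 2 * n) = pat n k := by
  unfold pat
  rw [Nat.add_mod_right]

theorem card_filter_shift (p : ℕ → Prop) [DecidablePred p] (a r : ℕ) :
    ((Finset.range a).filter fun k => p (r + k)).card = ((Finset.Ico r (r + a)).filter p).card := by
  have : (Finset.Ico r (r + a)).filter p = ((Finset.range a).filter fun k => p (r + k)).map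
      (addLeftEmbedding r) := by
    ext x
    simp only [Finset.mem_filter, Finset.mem_Ico, Finset.mem_map, Finset.mem_range,
      addLeftEmbedding_apply]
    constructor
    · rintro ⟨⟨h1, h2⟩, h3⟩
      refine ⟨x - r, ⟨by omega, ?_⟩, by omega⟩
      rwa [Nat.add_sub_cancel' h1]
    · rintro ⟨k, ⟨h1, h2⟩, rfl⟩
      exact ⟨⟨by omega, by omega⟩, h2⟩
  rw [this, Finset.card_map]

theorem count_pat (n r : ℕ) (hn : 0 < n) :
    ((Finset.range (2 * n)).filter fun k => pat n (r + k) = true).card = n := by
  rw [card_filter_shift (fun k => pat n k = true)]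
  rw [Nat.filter_Ico_card_eq_of_periodic r (2 * n) (fun k => pat n k = true)
    (fun k => by simp only [pat_per])]
  rw [Nat.count_eq_card_filter_range]
  have : (Finset.range (2 * n)).filter (fun k => pat n k = true) = Finset.Ico n (2 * n) := by
    ext x
    simp only [Finset.mem_filter, Finset.mem_range, Finset.mem_Ico, pat, decide_eq_true_eq]
    constructor
    · rintro ⟨h1, h2⟩
      rw [Nat.mod_eq_of_lt h1] at h2
      exact ⟨h2, h1⟩
    · rintro ⟨h1, h2⟩
      rw [Nat.mod_eq_of_lt h2]
      exact ⟨h2, h1⟩
  rw [this, Nat.card_Ico]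
  omega

theorem count_change (n r : ℕ) (hn : 0 < n) :
    ((Finset.range (2 * n)).filter fun k => pat n (r + k) ≠ pat n (r + k + 1)).card ≤ 2 := by
  rw [card_filter_shift (fun k => pat n k ≠ pat n (k + 1))]
  rw [Nat.filter_Ico_card_eq_of_periodic r (2 * n) (fun k => pat n k ≠ pat n (k + 1))
    (fun k => by
      have h1 : k + 2 * n + 1 = k + 1 + 2 * n := by omega
      simp only [h1, pat_per])]
  rw [Nat.count_eq_card_filter_range]
  have : (Finset.range (2 * n)).filter (fun k => pat n k ≠ pat n (k + 1)) ⊆
      {n - 1, 2 * n - 1} := by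
    intro x
    simp only [Finset.mem_filter, Finset.mem_range, Finset.mem_insert, Finset.mem_singleton]
    rintro ⟨h1, h2⟩
    by_contra hc
    push Not at hc
    apply h2
    unfold pat
    rw [Nat.mod_eq_of_lt h1]
    have h3 : x + 1 < 2 * n := by omega
    rw [Nat.mod_eq_of_lt h3]
    apply decide_eq_decide.2
    omega
  exact (Finset.card_le_card this).trans Finset.card_le_two

end Pool.Agent.H98R3.BA
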