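import Pool.Agent.H98R3.BA.Avg
import Pool.Agent.H98R3.BA.Bits
import Pool.Agent.H98R3.BA.Pat

set_option autoImplicit false

open MeasureTheory Filter Topology Set TopologicalSpace
open scoped ENNReal NNReal

namespace Pool.Agent.H98R3.BA

instance countable_G2 : Countable G2 := inferInstanceAs (Countable (ℤ × ℤ))

structure Seed where
  A : Set X
  B : Set X
  C : Set X
  R : Set X
  L : Set X
  hA : IsClopen A
  hB : IsClopen B
  hC : IsClopen C
  hR : IsClopen R
  hL : IsClopen L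
  RB : ∀ x ∈ R, x ∉ B
  LC : ∀ x ∈ L, x ∈ C
  x₀ : X
  x₀A : x₀ ∈ A
  x₀R : x₀ ∈ R
  x₀L : x₀ ∈ L

def Seed.U (S : Seed) : Set Act := {a |
   MapsTo (a.1 (pt 1 0)) S.A S.A ∧ MapsTo (a.1 (pt 0 1)) S.A S.A ∧
   MapsTo (a.1 (pt 1 0)) (S.A ∩ (S.C ∩ S.B)) S.C ∧
   MapsTo (a.1 (pt 1 0)) (S.A \ (S.C ∩ S.B)) S.Cᶜ ∧
   MapsTo (a.1 (pt 0 1)) (S.A ∩ ((S.B \ S.C) ∪ (S.C \ S.B))) S.B ∧
   MapsTo (a.1 (pt 0 1)) (S.A \ ((S.B \ S.C) ∪ (S.C \ S.B))) S.Bᶜ ∧
   MapsTo (a.1 (pt 1 0)) S.R S.R ∧ MapsTo (a.1 (pt 0 1)) S.L S.L}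

theorem isOpen_mapsTo (g : G2) {K V : Set X} (hK : IsClopen K) (hV : IsClopen V) :
    IsOpen {a : Act | MapsTo (a.1 g) K V} := by
  have h1 : Continuous fun a : Act => a.1 g := (continuous_apply g).comp continuous_subtype_val
  exact (ContinuousMap.isOpen_setOfPred_mapsTo hK.isClosed.isCompact hV.isOpen).preimage h1

theorem Seed.isOpen_U (S : Seed) : IsOpen S.U := by
  have e : S.U = {a : Act | MapsTo (a.1 (pt 1 0)) S.A S.A} ∩
      ({a : Act | MapsTo (a.1 (pt 0 1)) S.A S.A} ∩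
      ({a : Act | MapsTo (a.1 (pt 1 0)) (S.A ∩ (S.C ∩ S.B)) S.C} ∩
      ({a : Act | MapsTo (a.1 (pt 1 0)) (S.A \ (S.C ∩ S.B)) S.Cᶜ} ∩
      ({a : Act | MapsTo (a.1 (pt 0 1)) (S.A ∩ ((S.B \ S.C) ∪ (S.C \ S.B))) S.B} ∩
      ({a : Act | MapsTo (a.1 (pt 0 1)) (S.A \ ((S.B \ S.C) ∪ (S.C \ S.B))) S.Bᶜ} ∩
      ({a : Act | MapsTo (a.1 (pt 1 0)) S.R S.R} ∩
      {a : Act | MapsTo (a.1 (pt 0 1)) S.L S.L})))))) := rfl
  rw [e]
  have hx : IsClopen ((S.B \ S.C) ∪ (S.C \ S.B)) := (S.hB.diff S.hC).union (S.hC.diff S.hB)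
  have hy : IsClopen (S.C ∩ S.B) := S.hC.inter S.hB
  refine (isOpen_mapsTo _ S.hA S.hA).inter ((isOpen_mapsTo _ S.hA S.hA).inter
    ((isOpen_mapsTo _ (S.hA.inter hy) S.hC).inter ((isOpen_mapsTo _ (S.hA.diff hy) S.hC.compl).inter
    ((isOpen_mapsTo _ (S.hA.inter hx) S.hB).inter ((isOpen_mapsTo _ (S.hA.diff hx) S.hB.compl).inter
    ((isOpen_mapsTo _ S.hR S.hR).inter (isOpen_mapsTo _ S.hL S.hL)))))))

section

variable {S : Seed} {a : Act} (ha : a ∈ S.U)

theorem step1 (k l : ℤ) (x : X) : a.1 (pt 1 0) (a.1 (pt k l) x) = a.1 (pt (k + 1) l) x := by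
  rw [← act_mul, pt_mul]
  congr 2
  rw [add_comm, zero_add]

theorem step2 (k l : ℤ) (x : X) : a.1 (pt 0 1) (a.1 (pt k l) x) = a.1 (pt k (l + 1)) x := by
  rw [← act_mul, pt_mul]
  congr 2
  rw [add_comm 1 l, zero_add]

theorem pt_zero : pt 0 0 = 1 := rfl

include ha in
theorem inA (k t : ℕ) : a.1 (pt k t) S.x₀ ∈ S.A := by
  have h1 : ∀ k : ℕ, a.1 (pt k 0) S.x₀ ∈ S.A := by
    intro k
    induction k with
    | zero =>
      have : a.1 (pt ((0 : ℕ) : ℤ) 0) S.x₀ = S.x₀ := act_one a S.x₀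
      rw [this]; exact S.x₀A
    | succ k ih =>
      have := ha.1 ih
      rw [step1] at this
      exact_mod_cast this
  induction t with
  | zero => exact h1 k
  | succ t ih =>
    have := ha.2.1 ih
    rw [step2] at this
    exact_mod_cast this

include ha in
theorem box_points (n N : ℕ) : ∃ z : X, ∀ k < N, ∀ l < N,
    (a.1 (pt (k : ℕ) (l : ℕ)) z ∈ S.B ↔ pat n k = true) ∧
    a.1 (pt (k : ℕ) (l : ℕ)) z ∉ S.C ∧ a.1 (pt (k : ℕ) (l : ℕ)) z ∈ S.A := by
  obtain ⟨h1, h2, h3, h4, h5, h6, h7, h8⟩ := ha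
  have hAA : ∀ k t : ℕ, a.1 (pt k t) S.x₀ ∈ S.A := fun k t => inA ⟨h1, h2, h3, h4, h5, h6, h7, h8⟩ k t
  have hR : ∀ k : ℕ, a.1 (pt k 0) S.x₀ ∈ S.R := by
    intro k
    induction k with
    | zero =>
      have : a.1 (pt ((0 : ℕ) : ℤ) 0) S.x₀ = S.x₀ := act_one a S.x₀
      rw [this]; exact S.x₀R
    | succ k ih =>
      have := h7 ih
      rw [step1] at this
      exact_mod_cast this
  have hL : ∀ t : ℕ, a.1 (pt 0 t) S.x₀ ∈ S.L := by
    intro t
    induction t with
    | zero =>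
      have : a.1 (pt 0 ((0 : ℕ) : ℤ)) S.x₀ = S.x₀ := act_one a S.x₀
      rw [this]; exact S.x₀L
    | succ t ih =>
      have := h8 ih
      rw [step2] at this
      exact_mod_cast this
  obtain ⟨k₀, t₀, hbox⟩ := box (b := fun k t => a.1 (pt (k : ℕ) (t : ℕ)) S.x₀ ∈ S.B)
    (c := fun k t => a.1 (pt (k : ℕ) (t : ℕ)) S.x₀ ∈ S.C) (by
      intro k t
      have e : a.1 (pt ((k + 1 : ℕ) : ℤ) t) S.x₀ = a.1 (pt 1 0) (a.1 (pt k t) S.x₀) := by
        rw [step1]; push_cast; rfl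
      rw [e]
      constructor
      · intro hc
        by_contra hcon
        exact h4 ⟨hAA k t, hcon⟩ hc
      · intro hc
        exact h3 ⟨hAA k t, hc⟩) (by
      intro k t
      have e : a.1 (pt k ((t + 1 : ℕ) : ℤ)) S.x₀ = a.1 (pt 0 1) (a.1 (pt k t) S.x₀) := by
        rw [step2]; push_cast; rfl
      rw [e]
      constructor
      · intro hc
        by_contra hcon
        exact h6 ⟨hAA k t, hcon⟩ hc
      · intro hc
        exact h5 ⟨hAA k t, hc⟩)
    (fun k => S.RB _ (hR k)) (fun t => S.LC _ (hL t)) (pat n) N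
  refine ⟨a.1 (pt k₀ t₀) S.x₀, fun k hk l hl => ?_⟩
  have e : a.1 (pt (k : ℕ) (l : ℕ)) (a.1 (pt k₀ t₀) S.x₀) =
      a.1 (pt ((k₀ + k : ℕ) : ℤ) ((t₀ + l : ℕ) : ℤ)) S.x₀ := by
    rw [← act_mul, pt_mul]
    congr 2
    push_cast
    rw [add_comm, add_comm (l : ℤ)]
  rw [e]
  exact ⟨(hbox k hk l hl).1, (hbox k hk l hl).2, hAA _ _⟩

variable (S a) in
def W (k : ℕ) (v : Bool) : Set X :=
  if v = true then ⇑(a.1 (pt k 0)) ⁻¹' S.B else (⇑(a.1 (pt k 0)) ⁻¹' S.B)ᶜ

theorem mem_W (k : ℕ) (v : Bool) (x : X) : x ∈ W S a k v ↔ (a.1 (pt k 0) x ∈ S.B ↔ v = true) := by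
  unfold W
  cases v <;> simp

theorem isClopen_W (k : ℕ) (v : Bool) : IsClopen (W S a k v) := by
  unfold W
  split_ifs
  · exact S.hB.preimage (a.1 _).continuous
  · exact (S.hB.preimage (a.1 _).continuous).compl

variable (S a) in
def EE (n : ℕ) : Set X :=
  ⋃ r ∈ Finset.range (2 * n), ⋂ k ∈ Finset.range (2 * n + 1), W S a k (pat n (r + k))

theorem isClopen_EE (n : ℕ) : IsClopen (EE S a n) :=
  isClopen_biUnion_finset fun r _ => isClopen_biInter_finset fun k _ => isClopen_W k _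

theorem mem_EE (n : ℕ) (x : X) : x ∈ EE S a n ↔ ∃ r < 2 * n, ∀ k < 2 * n + 1,
    (a.1 (pt k 0) x ∈ S.B ↔ pat n (r + k) = true) := by
  unfold EE
  simp only [mem_iUnion, mem_iInter, mem_W, Finset.mem_range, exists_prop]

variable (S a) in
def DD (n : ℕ) : Set X := S.C ∪ (S.Aᶜ ∪ (EE S a n)ᶜ)

theorem isClopen_DD (n : ℕ) : IsClopen (DD S a n) :=
  S.hC.union (S.hA.compl.union (isClopen_EE n).compl)

include ha in
theorem MM_nonempty (n : ℕ) (hn : 0 < n) : (MM a (DD S a n)).Nonempty := by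
  apply exists_MM a (isClopen_DD n)
  intro N
  obtain ⟨z, hz⟩ := box_points ha n (N + (2 * n + 1))
  refine ⟨z, fun k hk l hl => ?_⟩
  unfold DD
  rw [mem_union, mem_union, mem_compl_iff, mem_compl_iff]
  push Not
  refine ⟨(hz k (by omega) l (by omega)).2.1, (hz k (by omega) l (by omega)).2.2, ?_⟩
  rw [mem_EE]
  refine ⟨k % (2 * n), Nat.mod_lt _ (by omega), fun j hj => ?_⟩
  have e : a.1 (pt (j : ℕ) 0) (a.1 (pt k l) z) = a.1 (pt ((k + j : ℕ) : ℤ) l) z := by
    rw [← act_mul, pt_mul]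
    congr 2
    push_cast
    rw [add_comm, zero_add]
  rw [e, (hz (k + j) (by omega) l (by omega)).1]
  unfold pat
  rw [Nat.mod_add_mod]

variable (S a) in
/-- points where membership in `B` changes -/
def Ch (g : G2) : Set X := (S.B \ ⇑(a.1 g) ⁻¹' S.B) ∪ (⇑(a.1 g) ⁻¹' S.B \ S.B)

theorem mem_Ch (g : G2) (x : X) : x ∈ Ch S a g ↔ ¬ (x ∈ S.B ↔ a.1 g x ∈ S.B) := by
  unfold Ch
  simp only [mem_union, mem_diff, mem_preimage]
  tauto

theorem isClopen_Ch (g : G2) : IsClopen (Ch S a g) := by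
  have h := S.hB.preimage (a.1 g).continuous
  exact (S.hB.diff h).union (h.diff S.hB)

theorem sum_ind {μ : PM} (hμ : Inv a μ) {K : Set X} (hK : IsClopen K) (m : ℕ) :
    ∫ x, (∑ k ∈ Finset.range m, (⇑(a.1 (pt k 0)) ⁻¹' K).indicator (fun _ => (1 : ℝ)) x)
      ∂(μ : Measure X) = m * ev μ K := by
  have hm : ∀ k : ℕ, MeasurableSet (⇑(a.1 (pt k 0)) ⁻¹' K) := fun k =>
    (hK.preimage (a.1 _).continuous).isOpen.measurableSet
  rw [integral_finset_sum]
  · have : ∀ k ∈ Finset.range m,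
        ∫ x, (⇑(a.1 (pt k 0)) ⁻¹' K).indicator (fun _ => (1 : ℝ)) x ∂(μ : Measure X) = ev μ K := by
      intro k _
      rw [integral_indicator (hm k), setIntegral_const, smul_eq_mul, mul_one]
      unfold ev Measure.real
      rw [← Measure.map_apply (a.1 _).continuous.measurable hK.isOpen.measurableSet, hμ]
    rw [Finset.sum_congr rfl this, Finset.sum_const, Finset.card_range, nsmul_eq_mul]
  · intro k _
    exact (integrable_const (1 : ℝ)).indicator (hm k)

theorem ae_EE {n : ℕ} {μ : PM} (hμ : μ ∈ MM a (DD S a n)) : ∀ᵐ x ∂(μ : Measure X), x ∈ EE S a n := by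
  rw [ae_iff]
  have h0 : (μ : Measure X) (DD S a n) = 0 := by
    have := hμ.2
    unfold ev Measure.real at this
    rcases (ENNReal.toReal_eq_zero_iff _).1 this with h | h
    · exact h
    · exact absurd h (measure_ne_top _ _)
  refine measure_mono_null (fun x hx => ?_) h0
  exact Or.inr (Or.inr hx)

theorem ev_B {n : ℕ} (hn : 0 < n) {μ : PM} (hμ : μ ∈ MM a (DD S a n)) : ev μ S.B = 1 / 2 := by
  have h1 := sum_ind hμ.1 S.hB (2 * n)
  have h2 : ∫ x, (∑ k ∈ Finset.range (2 * n),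
      (⇑(a.1 (pt k 0)) ⁻¹' S.B).indicator (fun _ => (1 : ℝ)) x) ∂(μ : Measure X) =
      ∫ _, (n : ℝ) ∂(μ : Measure X) := by
    refine integral_congr_ae ((ae_EE hμ).mono fun x hx => ?_)
    obtain ⟨r, -, hr⟩ := (mem_EE n x).1 hx
    change ∑ k ∈ Finset.range (2 * n), _ = (n : ℝ)
    have h3 := count_pat n r hn
    rw [Finset.card_filter] at h3
    have h4 : ((∑ k ∈ Finset.range (2 * n), if pat n (r + k) = true then 1 else 0 : ℕ) : ℝ) = n := by
      exact_mod_cast h3
    refine Eq.trans ?_ h4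
    push_cast
    refine Finset.sum_congr rfl fun k hk => ?_
    have hk' := hr k (by have := Finset.mem_range.1 hk; omega)
    by_cases h : a.1 (pt k 0) x ∈ S.B
    · rw [if_pos (hk'.1 h), indicator_of_mem (show x ∈ ⇑(a.1 (pt k 0)) ⁻¹' S.B from h)]
    · rw [if_neg (fun h' => h (hk'.2 h')),
        indicator_of_notMem (show x ∉ ⇑(a.1 (pt k 0)) ⁻¹' S.B from h)]
  rw [h2, integral_const, smul_eq_mul] at h1
  simp only [probReal_univ, one_mul] at h1
  push_cast at h1
  have : (0 : ℝ) < n := by exact_mod_cast hn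
  field_simp
  nlinarith

theorem ev_Ch1 {n : ℕ} (hn : 0 < n) {μ : PM} (hμ : μ ∈ MM a (DD S a n)) :
    ev μ (Ch S a (pt 1 0)) ≤ 1 / n := by
  have h1 := sum_ind hμ.1 (isClopen_Ch (S := S) (a := a) (pt 1 0)) (2 * n)
  have h2 : ∫ x, (∑ k ∈ Finset.range (2 * n),
      (⇑(a.1 (pt k 0)) ⁻¹' (Ch S a (pt 1 0))).indicator (fun _ => (1 : ℝ)) x) ∂(μ : Measure X) ≤
      ∫ _, (2 : ℝ) ∂(μ : Measure X) := by
    refine integral_mono_ae ?_ (integrable_const _) ((ae_EE hμ).mono fun x hx => ?_)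
    · refine integrable_finset_sum _ fun k _ => (integrable_const (1 : ℝ)).indicator ?_
      exact ((isClopen_Ch (S := S) (a := a) (pt 1 0)).preimage
        (a.1 _).continuous).isOpen.measurableSet
    obtain ⟨r, -, hr⟩ := (mem_EE n x).1 hx
    change ∑ k ∈ Finset.range (2 * n), _ ≤ (2 : ℝ)
    have h3 := count_change n r hn
    rw [Finset.card_filter] at h3
    have h4 : ((∑ k ∈ Finset.range (2 * n), if pat n (r + k) ≠ pat n (r + k + 1) then 1 else 0 : ℕ) : ℝ)
        ≤ 2 := by exact_mod_cast h3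
    refine le_trans (le_of_eq ?_) h4
    push_cast
    refine Finset.sum_congr rfl fun k hk => ?_
    have hk' := hr k (by have := Finset.mem_range.1 hk; omega)
    have hk'' := hr (k + 1) (by have := Finset.mem_range.1 hk; omega)
    have e : a.1 (pt ((k + 1 : ℕ) : ℤ) 0) x = a.1 (pt 1 0) (a.1 (pt k 0) x) := by
      rw [step1]; push_cast; rfl
    rw [e] at hk''
    have hiff : a.1 (pt k 0) x ∈ Ch S a (pt 1 0) ↔ pat n (r + k) ≠ pat n (r + k + 1) := by
      rw [mem_Ch, hk', hk'']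
      rw [show r + (k + 1) = r + k + 1 from rfl]
      constructor
      · intro h h'
        exact h (by rw [h'])
      · intro h h'
        exact h (Bool.eq_iff_iff.2 h')
    by_cases h : a.1 (pt k 0) x ∈ Ch S a (pt 1 0)
    · rw [if_pos (hiff.1 h), indicator_of_mem
        (show x ∈ ⇑(a.1 (pt k 0)) ⁻¹' (Ch S a (pt 1 0)) from h)]
    · rw [if_neg (fun h' => h (hiff.2 h')),
        indicator_of_notMem (show x ∉ ⇑(a.1 (pt k 0)) ⁻¹' (Ch S a (pt 1 0)) from h)]
  rw [h1, integral_const, smul_eq_mul] at h2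
  simp only [probReal_univ, one_mul] at h2
  push_cast at h2
  have : (0 : ℝ) < n := by exact_mod_cast hn
  rw [le_div_iff₀ this]
  nlinarith

include ha in
theorem ev_Ch2 {n : ℕ} {μ : PM} (hμ : μ ∈ MM a (DD S a n)) :
    ev μ (Ch S a (pt 0 1)) = 0 := by
  have h0 : (μ : Measure X) (DD S a n) = 0 := by
    have := hμ.2
    unfold ev Measure.real at this
    rcases (ENNReal.toReal_eq_zero_iff _).1 this with h | h
    · exact h
    · exact absurd h (measure_ne_top _ _)
  obtain ⟨-, -, -, -, h5, h6, -, -⟩ := ha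
  have h1 : (μ : Measure X) (Ch S a (pt 0 1)) = 0 := by
    refine measure_mono_null (fun x hx => ?_) h0
    rw [mem_Ch] at hx
    by_contra hcon
    unfold DD at hcon
    rw [mem_union, mem_union, mem_compl_iff, mem_compl_iff] at hcon
    push Not at hcon
    obtain ⟨hC, hA, -⟩ := hcon
    apply hx
    constructor
    · intro hB
      exact h5 ⟨hA, Or.inl ⟨hB, hC⟩⟩
    · intro hB
      by_contra hB'
      refine h6 ⟨hA, ?_⟩ hB
      rintro (⟨h, -⟩ | ⟨h, -⟩)
      · exact hB' h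
      · exact hC h
  unfold ev Measure.real
  rw [h1]; rfl

theorem null_Ch {μ : PM} (hμ : Inv a μ) (h1 : (μ : Measure X) (Ch S a (pt 1 0)) = 0)
    (h2 : (μ : Measure X) (Ch S a (pt 0 1)) = 0) (g : G2) : (μ : Measure X) (Ch S a g) = 0 := by
  have hpre : ∀ (g : G2) (K : Set X), IsClopen K → (μ : Measure X) (⇑(a.1 g) ⁻¹' K) = (μ : Measure X) K := by
    intro g K hK
    rw [← Measure.map_apply (a.1 g).continuous.measurable hK.isOpen.measurableSet, hμ g]
  let H : Subgroup G2 :=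
    { carrier := {g | (μ : Measure X) (Ch S a g) = 0}
      mul_mem' := by
        intro g h hg hh
        change (μ : Measure X) (Ch S a (g * h)) = 0
        have hg' : (μ : Measure X) (⇑(a.1 h) ⁻¹' (Ch S a g)) = 0 := by
          rw [hpre h _ (isClopen_Ch g)]; exact hg
        refine measure_mono_null (fun x hx => ?_) (measure_union_null hh hg')
        rw [mem_Ch, act_mul] at hx
        rw [mem_union, mem_preimage, mem_Ch, mem_Ch]
        tauto
      one_mem' := by
        change (μ : Measure X) (Ch S a 1) = 0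
        have : Ch S a 1 = ∅ := by
          ext x
          rw [mem_Ch, act_one]
          simp
        rw [this, measure_empty]
      inv_mem' := by
        intro g hg
        change (μ : Measure X) (Ch S a g⁻¹) = 0
        have : Ch S a g⁻¹ ⊆ ⇑(a.1 g⁻¹) ⁻¹' (Ch S a g) := by
          intro x hx
          rw [mem_preimage, mem_Ch, ← act_mul, mul_inv_cancel, act_one]
          rw [mem_Ch] at hx
          tauto
        refine measure_mono_null this ?_
        rw [hpre _ _ (isClopen_Ch g)]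
        exact hg }
  have hg : g ∈ H := by
    have : g = (pt 1 0) ^ (Multiplicative.toAdd g).1 * (pt 0 1) ^ (Multiplicative.toAdd g).2 := by
      unfold pt
      rw [← ofAdd_zsmul, ← ofAdd_zsmul, ← ofAdd_add]
      apply Multiplicative.toAdd.injective
      rw [toAdd_ofAdd]
      ext <;> simp
    rw [this]
    exact H.mul_mem (H.zpow_mem h1 _) (H.zpow_mem h2 _)
  exact hg

include ha in
theorem not_closed : ¬ IsClosed {ν : {μ : ProbabilityMeasure (ℕ → Bool) //
                  ∀ g : G2, (μ : Measure (ℕ → Bool)).map (⇑(a.1 g)) = (μ : Measure (ℕ → Bool))} |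
        ∀ s : Set (ℕ → Bool), MeasurableSet s → (∀ g : G2, ⇑(a.1 g) ⁻¹' s = s) →
          (ν.1 : Measure (ℕ → Bool)) s = 0 ∨ (ν.1 : Measure (ℕ → Bool)) s = 1} := by
  intro hclosed
  have hex : ∀ n : ℕ, ∃ μ ∈ MM a (DD S a (n + 1)), ∀ s : Set X, MeasurableSet s →
      (∀ g : G2, ⇑(a.1 g) ⁻¹' s = s) → (μ : Measure X) s = 0 ∨ (μ : Measure X) s = 1 := fun n =>
    exists_ergodic a (isClopen_DD _) (MM_nonempty ha (n + 1) (Nat.succ_pos n))
  choose ms hms herg using hex
  let u : Ultrafilter ℕ := hyperfilter ℕ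
  have hu : (u : Filter ℕ) ≤ atTop := by
    rw [← Nat.cofinite_eq_atTop]; exact hyperfilter_le_cofinite
  obtain ⟨μ, -, hμ⟩ := (isCompact_univ (X := PM)).ultrafilter_le_nhds (Ultrafilter.map ms u)
    (by simp)
  have hlim : Tendsto ms (u : Filter ℕ) (𝓝 μ) := hμ
  have hinv : Inv a μ := by
    intro g
    exact (isClosed_inv (a.1 g)).mem_of_tendsto hlim (Eventually.of_forall fun n => (hms n).1 g)
  let σ : ℕ → {μ : ProbabilityMeasure (ℕ → Bool) //
      ∀ g : G2, (μ : Measure (ℕ → Bool)).map (⇑(a.1 g)) = (μ : Measure (ℕ → Bool))} :=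
    fun n => ⟨ms n, (hms n).1⟩
  have hσ : Tendsto σ (u : Filter ℕ) (𝓝 ⟨μ, hinv⟩) := tendsto_subtype_rng.2 hlim
  have hmem := hclosed.mem_of_tendsto hσ (Eventually.of_forall fun n => herg n)
  have hB : ev μ S.B = 1 / 2 := by
    have t1 := tendsto_ev hlim S.hB
    have t2 : Tendsto (fun n => ev (ms n) S.B) (u : Filter ℕ) (𝓝 (1 / 2)) := by
      have : (fun n => ev (ms n) S.B) = fun _ => (1 / 2 : ℝ) := by
        funext n
        exact ev_B (Nat.succ_pos n) (hms n)
      rw [this]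
      exact tendsto_const_nhds
    exact tendsto_nhds_unique t1 t2
  have toNull : ∀ K : Set X, ev μ K = 0 → (μ : Measure X) K = 0 := by
    intro K hK
    unfold ev Measure.real at hK
    rcases (ENNReal.toReal_eq_zero_iff _).1 hK with h | h
    · exact h
    · exact absurd h (measure_ne_top _ _)
  have hc1 : ev μ (Ch S a (pt 1 0)) = 0 := by
    have t1 := tendsto_ev hlim (isClopen_Ch (S := S) (a := a) (pt 1 0))
    have t2 : Tendsto (fun n => ev (ms n) (Ch S a (pt 1 0))) (u : Filter ℕ) (𝓝 0) := by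
      refine squeeze_zero (fun n => ev_nonneg _ _) (fun n => ev_Ch1 (Nat.succ_pos n) (hms n)) ?_
      have := (tendsto_one_div_add_atTop_nhds_zero_nat (𝕜 := ℝ)).mono_left hu
      refine this.congr fun n => ?_
      push_cast
      rfl
    exact tendsto_nhds_unique t1 t2
  have hc2 : ev μ (Ch S a (pt 0 1)) = 0 := by
    have t1 := tendsto_ev hlim (isClopen_Ch (S := S) (a := a) (pt 0 1))
    have t2 : Tendsto (fun n => ev (ms n) (Ch S a (pt 0 1))) (u : Filter ℕ) (𝓝 0) := by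
      have : (fun n => ev (ms n) (Ch S a (pt 0 1))) = fun _ => (0 : ℝ) := by
        funext n
        exact ev_Ch2 ha (hms n)
      rw [this]
      exact tendsto_const_nhds
    exact tendsto_nhds_unique t1 t2
  have hch := null_Ch hinv (toNull _ hc1) (toNull _ hc2)
  let s : Set X := ⋂ g : G2, ⇑(a.1 g) ⁻¹' S.B
  have hsm : MeasurableSet s :=
    MeasurableSet.iInter fun g => (S.hB.preimage (a.1 g).continuous).isOpen.measurableSet
  have hsi : ∀ g : G2, ⇑(a.1 g) ⁻¹' s = s := by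
    intro h
    ext x
    simp only [s, mem_preimage, mem_iInter]
    constructor
    · intro hx g
      have := hx (g * h⁻¹)
      rwa [← act_mul, inv_mul_cancel_right] at this
    · intro hx g
      rw [← act_mul]
      exact hx (g * h)
  have hsub : s ⊆ S.B := by
    intro x hx
    have := mem_iInter.1 hx 1
    rwa [mem_preimage, act_one] at this
  have hdiff : (μ : Measure X) (S.B \ s) = 0 := by
    refine measure_mono_null (fun x hx => ?_) (measure_iUnion_null fun g => hch g)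
    obtain ⟨hxB, hxs⟩ := hx
    have : ∃ g, a.1 g x ∉ S.B := by
      by_contra hcon
      push Not at hcon
      exact hxs (mem_iInter.2 hcon)
    obtain ⟨g, hg⟩ := this
    refine mem_iUnion.2 ⟨g, ?_⟩
    rw [mem_Ch]
    tauto
  have hs : (μ : Measure X) s = (μ : Measure X) S.B := by
    apply le_antisymm (measure_mono hsub)
    calc (μ : Measure X) S.B ≤ (μ : Measure X) (s ∪ (S.B \ s)) := measure_mono (by
          intro x hx
          by_cases h : x ∈ s
          · exact Or.inl h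
          · exact Or.inr ⟨hx, h⟩)
      _ ≤ (μ : Measure X) s + (μ : Measure X) (S.B \ s) := measure_union_le _ _
      _ = (μ : Measure X) s := by rw [hdiff, add_zero]
  have hBr : ((μ : Measure X) S.B).toReal = 1 / 2 := hB
  rcases hmem s hsm hsi with h | h
  · change (μ : Measure X) s = 0 at h
    rw [← hs, h, ENNReal.toReal_zero] at hBr
    norm_num at hBr
  · change (μ : Measure X) s = 1 at h
    rw [← hs, h, ENNReal.toReal_one] at hBr
    norm_num at hBr

end

end Pool.Agent.H98R3.BA
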