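import Pool.Agent.H98R3.BA.NotClosed
import Pool.Agent.H812R3.CantorChar

set_option autoImplicit false

open MeasureTheory Filter Topology Set TopologicalSpace

namespace Pool.Agent.H98R3.BA

abbrev J := (ℤ × ℤ × Fin 5) ⊕ ℕ

def rule (z : J → Bool) (p q : ℤ) : Prop :=
  (z (Sum.inl (p, q, 0)) = true → z (Sum.inl (p + 1, q, 0)) = true ∧
    z (Sum.inl (p, q + 1, 0)) = true ∧
    z (Sum.inl (p + 1, q, 2)) = (z (Sum.inl (p, q, 2)) && z (Sum.inl (p, q, 1))) ∧
    z (Sum.inl (p, q + 1, 1)) = xor (z (Sum.inl (p, q, 1))) (z (Sum.inl (p, q, 2)))) ∧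
  (z (Sum.inl (p, q, 3)) = true → z (Sum.inl (p, q, 1)) = false ∧
    z (Sum.inl (p + 1, q, 3)) = true) ∧
  (z (Sum.inl (p, q, 4)) = true → z (Sum.inl (p, q, 2)) = true ∧
    z (Sum.inl (p, q + 1, 4)) = true)

theorem isClosed_rule (p q : ℤ) : IsClosed {z : J → Bool | rule z p q} := by
  let F : (J → Bool) → (Bool × Bool × Bool × Bool × Bool × Bool × Bool × Bool × Bool × Bool × Bool) :=
    fun z => (z (Sum.inl (p, q, 0)), z (Sum.inl (p + 1, q, 0)), z (Sum.inl (p, q + 1, 0)),
      z (Sum.inl (p + 1, q, 2)), z (Sum.inl (p, q, 2)), z (Sum.inl (p, q, 1)),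
      z (Sum.inl (p, q + 1, 1)), z (Sum.inl (p, q, 3)), z (Sum.inl (p + 1, q, 3)),
      z (Sum.inl (p, q, 4)), z (Sum.inl (p, q + 1, 4)))
  have hF : Continuous F := by
    unfold F
    fun_prop
  have : {z : J → Bool | rule z p q} = F ⁻¹' {t |
      (t.1 = true → t.2.1 = true ∧ t.2.2.1 = true ∧
        t.2.2.2.1 = (t.2.2.2.2.1 && t.2.2.2.2.2.1) ∧
        t.2.2.2.2.2.2.1 = xor (t.2.2.2.2.2.1) (t.2.2.2.2.1)) ∧
      (t.2.2.2.2.2.2.2.1 = true → t.2.2.2.2.2.1 = false ∧ t.2.2.2.2.2.2.2.2.1 = true) ∧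
      (t.2.2.2.2.2.2.2.2.2.1 = true → t.2.2.2.2.1 = true ∧ t.2.2.2.2.2.2.2.2.2.2 = true)} := rfl
  rw [this]
  exact (isClosed_discrete _).preimage hF

def ZZ : Set (J → Bool) := {z | ∀ p q : ℤ, rule z p q}

theorem isClosed_ZZ : IsClosed ZZ := by
  have : ZZ = ⋂ p : ℤ, ⋂ q : ℤ, {z : J → Bool | rule z p q} := by
    ext z
    simp [ZZ]
  rw [this]
  exact isClosed_iInter fun p => isClosed_iInter fun q => isClosed_rule p q

instance : CompactSpace ZZ := isCompact_iff_compactSpace.1 isClosed_ZZ.isCompact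

/-- the space-time diagram of the binary counter -/
def seedPt : J → Bool
  | Sum.inr _ => false
  | Sum.inl (p, q, i) =>
    if 0 ≤ p ∧ 0 ≤ q then
      (match i with
        | 0 => true
        | 1 => q.toNat.testBit p.toNat
        | 2 => decide (∀ j < p.toNat, q.toNat.testBit j = true)
        | 3 => decide (q = 0)
        | 4 => decide (p = 0))
    else false

theorem seedPt_mem : seedPt ∈ ZZ := by
  intro p q
  by_cases h : 0 ≤ p ∧ 0 ≤ q
  · obtain ⟨hp, hq⟩ := h
    obtain ⟨m, rfl⟩ := Int.eq_ofNat_of_zero_le hp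
    obtain ⟨n, rfl⟩ := Int.eq_ofNat_of_zero_le hq
    have h1 : (0 : ℤ) ≤ (m : ℤ) + 1 := by positivity
    have h2 : (0 : ℤ) ≤ (n : ℤ) + 1 := by positivity
    have e1 : ((m : ℤ) + 1).toNat = m + 1 := by omega
    have e2 : ((n : ℤ) + 1).toNat = n + 1 := by omega
    refine ⟨fun _ => ⟨?_, ?_, ?_, ?_⟩, fun h3 => ⟨?_, ?_⟩, fun h4 => ⟨?_, ?_⟩⟩
    · simp [seedPt, h1]
    · simp [seedPt, h2]
    · simp only [seedPt, h1, hp, hq, and_self, if_true, e1, Int.toNat_natCast]
      rw [Bool.eq_iff_iff]
      simp only [decide_eq_true_eq, Bool.and_eq_true]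
      constructor
      · intro h
        exact ⟨fun j hj => h j (by omega), h m (by omega)⟩
      · rintro ⟨h3, h4⟩ j hj
        rcases Nat.lt_succ_iff_lt_or_eq.1 hj with h | h
        · exact h3 j h
        · rw [h]; exact h4
    · simp only [seedPt, h2, hp, hq, and_self, if_true, e2, Int.toNat_natCast]
      exact testBit_succ_eq m n
    · simp only [seedPt, hp, hq, and_self, if_true, decide_eq_true_eq] at h3 ⊢
      rw [h3]
      simp
    · simp only [seedPt, hp, hq, h1, and_self, if_true, decide_eq_true_eq] at h3 ⊢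
      exact h3
    · simp only [seedPt, hp, hq, and_self, if_true, decide_eq_true_eq] at h4 ⊢
      rw [h4]
      intro j hj
      simp at hj
    · simp only [seedPt, hp, hq, h2, and_self, if_true, decide_eq_true_eq] at h4 ⊢
      exact h4
  · have hf : ∀ i, seedPt (Sum.inl (p, q, i)) = false := by
      intro i
      simp [seedPt, h]
    refine ⟨fun h1 => ?_, fun h1 => ?_, fun h1 => ?_⟩
    · rw [hf] at h1; exact absurd h1 (by simp)
    · rw [hf] at h1; exact absurd h1 (by simp)
    · rw [hf] at h1; exact absurd h1 (by simp)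

instance : Nonempty ZZ := ⟨⟨seedPt, seedPt_mem⟩⟩

theorem exists_homeo : Nonempty (ZZ ≃ₜ (ℕ → Bool)) := by
  letI := Encodable.ofCountable J
  let e : ZZ → (ℕ → Bool) := fun z n => match Encodable.decode (α := J) n with
    | some j => z.1 j
    | none => false
  refine Pool.Agent.H812R3.CantorChar.cantor_char e ?_ ?_ ?_
  · refine continuous_pi fun n => ?_
    change Continuous fun z : ZZ => (match Encodable.decode (α := J) n with
      | some j => z.1 j
      | none => false)
    rcases Encodable.decode (α := J) n with _ | j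
    · exact continuous_const
    · exact (continuous_apply j).comp continuous_subtype_val
  · intro z w hzw
    apply Subtype.ext
    funext j
    have := congrFun hzw (Encodable.encode j)
    simp only [e, Encodable.encodek] at this
    exact this
  · intro z U hU hz
    let y : ℕ → ZZ := fun n => ⟨Function.update z.1 (Sum.inr n) (!(z.1 (Sum.inr n))), by
      intro p q
      have : ∀ i : ℤ × ℤ × Fin 5, Function.update z.1 (Sum.inr n) (!(z.1 (Sum.inr n))) (Sum.inl i) =
          z.1 (Sum.inl i) := fun i => Function.update_of_ne Sum.inl_ne_inr _ _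
      have h := z.2 p q
      unfold rule at h ⊢
      simp only [this]
      exact h⟩
    have hy : Tendsto y atTop (𝓝 z) := by
      rw [tendsto_subtype_rng, tendsto_pi_nhds]
      intro j
      refine tendsto_const_nhds.congr' ?_
      rcases j with i | m
      · refine Eventually.of_forall fun n => ?_
        change z.1 (Sum.inl i) = Function.update z.1 (Sum.inr n) (!(z.1 (Sum.inr n))) (Sum.inl i)
        rw [Function.update_of_ne Sum.inl_ne_inr]
      · filter_upwards [eventually_gt_atTop m] with n hn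
        change z.1 (Sum.inr m) = Function.update z.1 (Sum.inr n) (!(z.1 (Sum.inr n))) (Sum.inr m)
        rw [Function.update_of_ne]
        intro h
        have := Sum.inr.inj h
        omega
    obtain ⟨n, hn⟩ := (hy.eventually (hU.mem_nhds hz)).exists
    refine ⟨y n, hn, fun h => ?_⟩
    have h1 := congrFun (congrArg Subtype.val h) (Sum.inr n)
    simp only [y, Function.update_self] at h1
    cases h2 : z.1 (Sum.inr n) <;> rw [h2] at h1 <;> simp at h1

/-- the shift -/
def sh (g : G2) (z : J → Bool) : J → Bool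
  | Sum.inr n => z (Sum.inr n)
  | Sum.inl (p, q, i) => z (Sum.inl (p + (Multiplicative.toAdd g).1, q + (Multiplicative.toAdd g).2, i))

theorem sh_mem (g : G2) {z : J → Bool} (hz : z ∈ ZZ) : sh g z ∈ ZZ := by
  intro p q
  have h := hz (p + (Multiplicative.toAdd g).1) (q + (Multiplicative.toAdd g).2)
  have e1 : p + (Multiplicative.toAdd g).1 + 1 = p + 1 + (Multiplicative.toAdd g).1 := by ring
  have e2 : q + (Multiplicative.toAdd g).2 + 1 = q + 1 + (Multiplicative.toAdd g).2 := by ring
  unfold rule at h ⊢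
  rw [e1, e2] at h
  exact h

theorem continuous_sh (g : G2) : Continuous (sh g) := by
  refine continuous_pi fun j => ?_
  rcases j with ⟨p, q, i⟩ | n
  · exact continuous_apply _
  · exact continuous_apply _

noncomputable def hh : ZZ ≃ₜ (ℕ → Bool) := exists_homeo.some

noncomputable def aa : Act :=
  ⟨fun g => ⟨fun x => hh ⟨sh g (hh.symm x).1, sh_mem g (hh.symm x).2⟩,
      hh.continuous.comp (((continuous_sh g).comp
        (continuous_subtype_val.comp hh.symm.continuous)).subtype_mk _)⟩, by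
    constructor
    · apply ContinuousMap.ext
      intro x
      change hh ⟨sh 1 (hh.symm x).1, _⟩ = x
      have : (⟨sh 1 (hh.symm x).1, sh_mem 1 (hh.symm x).2⟩ : ZZ) = hh.symm x := by
        apply Subtype.ext
        funext j
        rcases j with ⟨p, q, i⟩ | n
        · change (hh.symm x).1 (Sum.inl (p + 0, q + 0, i)) = _
          rw [add_zero, add_zero]
        · rfl
      rw [this, Homeomorph.apply_symm_apply]
    · intro g h
      apply ContinuousMap.ext
      intro x
      change hh ⟨sh (g * h) (hh.symm x).1, _⟩ =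
        hh ⟨sh g (hh.symm (hh ⟨sh h (hh.symm x).1, sh_mem h (hh.symm x).2⟩)).1, _⟩
      congr 1
      apply Subtype.ext
      change sh (g * h) (hh.symm x).1 =
        sh g (hh.symm (hh ⟨sh h (hh.symm x).1, sh_mem h (hh.symm x).2⟩)).1
      rw [Homeomorph.symm_apply_apply]
      funext j
      rcases j with ⟨p, q, i⟩ | n
      · change (hh.symm x).1 (Sum.inl (p + ((Multiplicative.toAdd g).1 + (Multiplicative.toAdd h).1),
            q + ((Multiplicative.toAdd g).2 + (Multiplicative.toAdd h).2), i)) =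
          (hh.symm x).1 (Sum.inl (p + (Multiplicative.toAdd g).1 + (Multiplicative.toAdd h).1,
            q + (Multiplicative.toAdd g).2 + (Multiplicative.toAdd h).2, i))
        rw [add_assoc, add_assoc]
      · rfl⟩

theorem aa_apply (g : G2) (x : X) :
    (hh.symm (aa.1 g x)).1 = sh g (hh.symm x).1 := by
  change (hh.symm (hh ⟨sh g (hh.symm x).1, sh_mem g (hh.symm x).2⟩)).1 = _
  rw [Homeomorph.symm_apply_apply]

def cyl (i : Fin 5) : Set X := {x | (hh.symm x).1 (Sum.inl (0, 0, i)) = true}

theorem isClopen_cyl (i : Fin 5) : IsClopen (cyl i) := by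
  have hc : Continuous fun x : X => (hh.symm x).1 (Sum.inl (0, 0, i)) :=
    (continuous_apply _).comp (continuous_subtype_val.comp hh.symm.continuous)
  exact (isClopen_discrete ({true} : Set Bool)).preimage hc

theorem mem_cyl_shift (i : Fin 5) (k l : ℤ) (x : X) :
    aa.1 (pt k l) x ∈ cyl i ↔ (hh.symm x).1 (Sum.inl (k, l, i)) = true := by
  change (hh.symm (aa.1 (pt k l) x)).1 (Sum.inl (0, 0, i)) = true ↔ _
  rw [aa_apply]
  change (hh.symm x).1 (Sum.inl (0 + k, 0 + l, i)) = true ↔ _
  rw [zero_add, zero_add]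

noncomputable def SS : Seed where
  A := cyl 0
  B := cyl 1
  C := cyl 2
  R := cyl 3
  L := cyl 4
  hA := isClopen_cyl _
  hB := isClopen_cyl _
  hC := isClopen_cyl _
  hR := isClopen_cyl _
  hL := isClopen_cyl _
  RB := by
    intro x hx hB
    have := (((hh.symm x).2 0 0).2.1 hx).1
    rw [show (hh.symm x).1 (Sum.inl (0, 0, 1)) = true from hB] at this
    exact absurd this (by simp)
  LC := by
    intro x hx
    exact (((hh.symm x).2 0 0).2.2 hx).1
  x₀ := hh ⟨seedPt, seedPt_mem⟩
  x₀A := by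
    change (hh.symm (hh ⟨seedPt, seedPt_mem⟩)).1 (Sum.inl (0, 0, 0)) = true
    rw [Homeomorph.symm_apply_apply]
    simp [seedPt]
  x₀R := by
    change (hh.symm (hh ⟨seedPt, seedPt_mem⟩)).1 (Sum.inl (0, 0, 3)) = true
    rw [Homeomorph.symm_apply_apply]
    simp [seedPt]
  x₀L := by
    change (hh.symm (hh ⟨seedPt, seedPt_mem⟩)).1 (Sum.inl (0, 0, 4)) = true
    rw [Homeomorph.symm_apply_apply]
    simp [seedPt]

theorem aa_mem : aa ∈ SS.U := by
  have r : ∀ x : X, rule (hh.symm x).1 0 0 := fun x => (hh.symm x).2 0 0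
  refine ⟨?_, ?_, ?_, ?_, ?_, ?_, ?_, ?_⟩
  · intro x hx
    refine (mem_cyl_shift 0 1 0 x).2 ?_
    have := ((r x).1 hx).1
    rwa [zero_add] at this
  · intro x hx
    refine (mem_cyl_shift 0 0 1 x).2 ?_
    have := ((r x).1 hx).2.1
    rwa [zero_add] at this
  · intro x hx
    refine (mem_cyl_shift 2 1 0 x).2 ?_
    have := ((r x).1 hx.1).2.2.1
    rw [zero_add] at this
    rw [this, show (hh.symm x).1 (Sum.inl (0, 0, 2)) = true from hx.2.1,
      show (hh.symm x).1 (Sum.inl (0, 0, 1)) = true from hx.2.2]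
    rfl
  · intro x hx hcon
    have h1 := (mem_cyl_shift 2 1 0 x).1 hcon
    have := ((r x).1 hx.1).2.2.1
    rw [zero_add, h1] at this
    have h2 := (Bool.and_eq_true_iff).1 this.symm
    exact hx.2 ⟨h2.1, h2.2⟩
  · intro x hx
    refine (mem_cyl_shift 1 0 1 x).2 ?_
    have := ((r x).1 hx.1).2.2.2
    rw [zero_add] at this
    rw [this]
    rcases hx.2 with ⟨h1, h2⟩ | ⟨h1, h2⟩
    · rw [show (hh.symm x).1 (Sum.inl (0, 0, 1)) = true from h1,
        show (hh.symm x).1 (Sum.inl (0, 0, 2)) = false from Bool.eq_false_iff.2 h2]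
      rfl
    · rw [show (hh.symm x).1 (Sum.inl (0, 0, 2)) = true from h1,
        show (hh.symm x).1 (Sum.inl (0, 0, 1)) = false from Bool.eq_false_iff.2 h2]
      rfl
  · intro x hx hcon
    have h1 := (mem_cyl_shift 1 0 1 x).1 hcon
    have := ((r x).1 hx.1).2.2.2
    rw [zero_add, h1] at this
    apply hx.2
    cases hb : (hh.symm x).1 (Sum.inl (0, 0, 1)) <;> cases hc : (hh.symm x).1 (Sum.inl (0, 0, 2)) <;>
      rw [hb, hc] at this
    · exact absurd this (by simp)
    · refine Or.inr ⟨hc, fun h => ?_⟩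
      rw [show (hh.symm x).1 (Sum.inl (0, 0, 1)) = true from h] at hb
      exact absurd hb (by simp)
    · refine Or.inl ⟨hb, fun h => ?_⟩
      rw [show (hh.symm x).1 (Sum.inl (0, 0, 2)) = true from h] at hc
      exact absurd hc (by simp)
    · exact absurd this (by simp)
  · intro x hx
    refine (mem_cyl_shift 3 1 0 x).2 ?_
    have := ((r x).2.1 hx).2
    rwa [zero_add] at this
  · intro x hx
    refine (mem_cyl_shift 4 0 1 x).2 ?_
    have := ((r x).2.2 hx).2
    rwa [zero_add] at this

end Pool.Agent.H98R3.BA
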